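import Pool.Agent.N748.MO.Main

set_option autoImplicit false

/-!
# Moments of every order of zeta with two factors ON the critical line, truncated at every level

`d = d(T)` is the distance to the critical line of the remaining `2k - 2` factors, `d ≤ (log T)^(-c)` for some `c > 0`
and `d log T / (log 1/d)^2 → ∞` (for instance `d = (log log T)^3 / log T`); `k ≥ 1` is real. The mean over `[0, T]` of

`|ζ(1/2 + it)|² |ζ(1/2 + d + it)|^(2k-2)`

over the heights `t` with `|ζ(1/2 + d + it)| ≤ (2d)^(-V)` is asymptotically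

* `4^(k-1) a(k) (2d)^(1-k²) log T` for `V > k`, with the arithmetic factor `a(k)` of the moment conjecture;
* the fraction `Φ(x)` of this for the level `(2d)^(-k) exp (x √(½ log 1/(2d)))`, `Φ` the Gaussian distribution function;
* `4^(V-1) a(V) (2d)^(1+V²-2kV) log T / (2 (k-V) √(π log 1/(2d)))` for `V < k`.

The theorems F1, F2, F3 of the team library N748.MO, which had not been handed in, are restated here over Mathlib.
-/

namespace Pool.Agent.Results.MP_112ba8_nt.TwoFactorsOnTheLine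

open MeasureTheory Filter Topology

/-- the arithmetic factor of the moment conjecture,
`a(k) = ∏_p (1 - 1/p)^{k²} Σ_m (k (k+1) ... (k+m-1) / m!)² p^{-m}` -/
noncomputable def ak (k : ℝ) : ℝ :=
  ∏' p : Nat.Primes, ((1 - 1 / (p : ℝ)) ^ (k ^ 2) *
    ∑' m : ℕ, (∏ i ∈ Finset.range m, (k + i) / ((i : ℝ) + 1)) ^ 2 * (1 / (p : ℝ)) ^ m)

/-- the modulus of zeta on the critical line at height `t` -/
noncomputable def z0 (t : ℝ) : ℝ := ‖riemannZeta (1 / 2 + t * Complex.I)‖

/-- the modulus of zeta at distance `d` from the critical line and height `t` -/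
noncomputable def z (d t : ℝ) : ℝ := ‖riemannZeta (1 / 2 + d + t * Complex.I)‖

/-- the moment of order `2k` up to height `T` with two factors on the critical line and `2k - 2` factors at distance
`d` from it, over the heights `t` at which `|ζ(1/2 + d + it)| ≤ c` -/
noncomputable def M (k c d T : ℝ) : ℝ :=
  (1 / T) * ∫ t in {t : ℝ | t ∈ Set.Icc 0 T ∧ z d t ≤ c}, z0 t ^ 2 * z d t ^ (2 * (k - 1))

/-- the logarithm of `1/(2d)` -/
noncomputable def L (d : ℝ) : ℝ := Real.log (1 / (2 * d))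

/-- the normal distribution function -/
noncomputable def Phi (x : ℝ) : ℝ := (ProbabilityTheory.gaussianReal 0 1 (Set.Iic x)).toReal

open Pool.Agent.N748.MG Pool.Agent.N748.MO

lemma adm {c : ℝ} {d : ℝ → ℝ} (hc : 0 < c) (hd0 : ∀ᶠ T : ℝ in atTop, 0 < d T)
    (hdc : ∀ᶠ T : ℝ in atTop, d T ≤ Real.log T ^ (-c))
    (hdL : Tendsto (fun T : ℝ => d T * Real.log T / Real.log (1 / d T) ^ 2) atTop atTop) :
    Pool.Agent.N748.MO.Adc c d := by
  refine ⟨⟨hd0, ?_, hdL⟩, hc, hdc⟩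
  have h1 : Tendsto (fun T : ℝ => Real.log T ^ (-c)) atTop (𝓝 0) :=
    (tendsto_rpow_neg_atTop hc).comp Real.tendsto_log_atTop
  exact squeeze_zero' (hd0.mono fun T h => h.le) hdc h1

theorem result (c : ℝ) (hc : 0 < c) (d : ℝ → ℝ) (hd0 : ∀ᶠ T : ℝ in atTop, 0 < d T)
    (hdc : ∀ᶠ T : ℝ in atTop, d T ≤ Real.log T ^ (-c))
    (hdL : Tendsto (fun T : ℝ => d T * Real.log T / Real.log (1 / d T) ^ 2) atTop atTop) (k : ℝ) (hk : 1 ≤ k) :
    (∀ V : ℝ, k < V → Tendsto (fun T : ℝ => M k ((2 * d T) ^ (-V)) (d T) T /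
      (4 ^ (k - 1) * ak k * (2 * d T) ^ (1 - k ^ 2) * Real.log T)) atTop (𝓝 1)) ∧
    (∀ x : ℝ, Tendsto (fun T : ℝ => M k ((2 * d T) ^ (-k) * Real.exp (x * Real.sqrt (L (d T) / 2))) (d T) T /
      (4 ^ (k - 1) * ak k * (2 * d T) ^ (1 - k ^ 2) * Real.log T)) atTop (𝓝 (Phi x))) ∧
    (∀ V : ℝ, V < k → Tendsto (fun T : ℝ => M k ((2 * d T) ^ (-V)) (d T) T /
      (4 ^ (V - 1) * ak V * (2 * d T) ^ (1 + V ^ 2 - 2 * k * V) * Real.log T /
        (2 * (k - V) * Real.sqrt (Real.pi * L (d T))))) atTop (𝓝 1)) := by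
  have hA := adm hc hd0 hdc hdL
  obtain ⟨f1, f2, f3, -⟩ := Pool.Agent.N748.MO.allF
  have hpos : ∀ V : ℝ, 0 < ak V := fun V => (Pool.Agent.N748.MG.aC_akR V).1
  have hre : ∀ V : ℝ, (aC ((V : ℝ) : ℂ)).re = ak V := fun V => Pool.Agent.N748.MG.aC_re V
  have hcast : ((k - 1 : ℝ) : ℂ) + 1 = ((k : ℝ) : ℂ) := by push_cast; ring
  have h4 : ∀ V : ℝ, (0:ℝ) < 4 ^ V := fun V => Real.rpow_pos_of_pos (by norm_num) _
  have hk1 : 0 ≤ k - 1 := by linarith
  have ek : k - 1 + 1 = k := by ring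
  have hsmall : ∀ᶠ T : ℝ in atTop, d T < 1 / 2 := hA.toAd.t0.eventually (gt_mem_nhds (by norm_num))
  have hM : ∀ (cc dd T : ℝ), OM (k - 1) cc dd T = M k cc dd T := fun cc dd T => rfl
  refine ⟨fun V hV => ?_, fun x => ?_, fun V hV => ?_⟩
  · have h := f1 c d hA (k - 1) V hk1 (by linarith)
    rw [hcast, hre, ek] at h
    have h2 := h.div_const (4 ^ (k - 1) * ak k)
    rw [div_self (mul_pos (h4 _) (hpos k)).ne'] at h2
    refine h2.congr' ?_
    filter_upwards [hd0, eventually_gt_atTop 1] with T hT hT1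
    have h3 : (0:ℝ) < 2 * d T := by linarith
    have e1 : (2 * d T) ^ (1 - k ^ 2) = ((2 * d T) ^ (k ^ 2 - 1))⁻¹ := by
      rw [← Real.rpow_neg h3.le]; congr 1; ring
    have h5 : (0:ℝ) < (2 * d T) ^ (k ^ 2 - 1) := Real.rpow_pos_of_pos h3 _
    have h6 := hpos k
    have h7 := h4 (k - 1)
    have h8 : 0 < Real.log T := Real.log_pos hT1
    rw [hM, e1]
    field_simp
  · have h := f2 c d hA (k - 1) x hk1
    rw [hcast, hre, ek] at h
    have h2 := h.div_const (4 ^ (k - 1) * ak k)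
    rw [mul_div_cancel_left₀ _ (mul_pos (h4 _) (hpos k)).ne'] at h2
    refine h2.congr' ?_
    filter_upwards [hd0, eventually_gt_atTop 1] with T hT hT1
    have h3 : (0:ℝ) < 2 * d T := by linarith
    have e1 : (2 * d T) ^ (1 - k ^ 2) = ((2 * d T) ^ (k ^ 2 - 1))⁻¹ := by
      rw [← Real.rpow_neg h3.le]; congr 1; ring
    have h5 : (0:ℝ) < (2 * d T) ^ (k ^ 2 - 1) := Real.rpow_pos_of_pos h3 _
    have h6 := hpos k
    have h7 := h4 (k - 1)
    have h8 : 0 < Real.log T := Real.log_pos hT1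
    rw [hM, e1]
    unfold L
    field_simp
  · have h := f3 c d hA (k - 1) V hk1 (by linarith)
    rw [hre, ek] at h
    have hkV : (0:ℝ) < 2 * (k - V) := by linarith
    have h2 := h.div_const (4 ^ (V - 1) * ak V / (2 * (k - V)))
    rw [div_self (div_pos (mul_pos (h4 _) (hpos V)) hkV).ne'] at h2
    refine h2.congr' ?_
    filter_upwards [hd0, hsmall, eventually_gt_atTop 1] with T hT hT2 hT1
    have h3 : (0:ℝ) < 2 * d T := by linarith
    have e1 : (2 * d T) ^ (1 + V ^ 2 - 2 * k * V) = ((2 * d T) ^ (2 * k * V - V ^ 2 - 1))⁻¹ := by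
      rw [← Real.rpow_neg h3.le]; congr 1; ring
    have h5 : (0:ℝ) < (2 * d T) ^ (2 * k * V - V ^ 2 - 1) := Real.rpow_pos_of_pos h3 _
    have h6 := hpos V
    have h7 := h4 (V - 1)
    have h8 : 0 < Real.log T := Real.log_pos hT1
    have h9 : 0 < L (d T) := Real.log_pos (by rw [lt_div_iff₀ h3]; linarith)
    have h10 : 0 < Real.sqrt (Real.pi * L (d T)) := Real.sqrt_pos.2 (by positivity)
    have hkV' : k - V ≠ 0 := by linarith
    rw [hM, e1]
    change Real.sqrt (Real.pi * L (d T)) * (2 * d T) ^ (2 * k * V - V ^ 2 - 1) *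
      (M k ((2 * d T) ^ (-V)) (d T) T / Real.log T) / (4 ^ (V - 1) * ak V / (2 * (k - V))) = _
    field_simp

end Pool.Agent.Results.MP_112ba8_nt.TwoFactorsOnTheLine
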