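import Pool.Agent.H6F.Fin3

set_option autoImplicit false

/-!
# The moments over almost all short intervals of the critical line: a lower bound of nearly the conjectured order

Let `k > 0` be real, `θ > 0` and `θ > k² - 1`. For every function `H(T) ≥ (log T)^θ`, `H(T) = o(T)`, and every `ω(T) → ∞`,

`(1/H) ∫_t^{t+H} |ζ(1/2 + iu)|^(2k) du ≥ (log T / (ω(T) (log log T)²))^(k²)`

for all `t ∈ [0, T]` outside a set of measure `o(T)`. The conjectured order of the moment is `(log T)^(k²)`. No unproved hypothesis.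

Proof (`Pool.Agent.H6F`): at the distance `d = ω (log log T)² / log T` from the critical line the averages are asymptotically `a(k) (2d)^(-k²)` for
almost all `t` (`MP_112ba8_nt.ShortIntervalPhases`). The passage to the line: the integral of `|ζ(s) exp(((s-1/2-iy)/h)²)|^(2k)` over vertical lines
is a convex function of the abscissa (Hardy, Ingham and Pólya); this is used between the line itself and the distance `h = (2d)^(3/4) / 2`, and
integrated over the centres `y` of an interval.
-/

namespace Pool.Agent.Results.MP_112ba8_nt.LowerBoundShortIntervals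

open Filter MeasureTheory Topology Complex

theorem result (k θ : ℝ) (hk : 0 < k) (hθ : 0 < θ) (hkθ : k ^ 2 < 1 + θ) (ω H : ℝ → ℝ) (hω : Tendsto ω atTop atTop)
    (hH : ∀ᶠ T : ℝ in atTop, Real.log T ^ θ ≤ H T) (hHT : Tendsto (fun T : ℝ => H T / T) atTop (𝓝 0)) :
    Tendsto (fun T : ℝ => (volume {t : ℝ | t ∈ Set.Icc 0 T ∧
      (1 / H T) * ∫ u in t..(t + H T), ‖riemannZeta (1 / 2 + u * I)‖ ^ (2 * k) <
        (Real.log T / (ω T * Real.log (Real.log T) ^ 2)) ^ (k ^ 2)}).toReal / T) atTop (𝓝 0) := by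
  rw [Metric.tendsto_atTop']
  intro η hη
  obtain ⟨T0, h0⟩ := eventually_atTop.1 (Pool.Agent.H6F.onlF k θ (η / 2) hk hθ hkθ (by positivity) ω H hω hH hHT)
  refine ⟨max T0 1, fun T hT => ?_⟩
  have hT1 : 1 < T := lt_of_le_of_lt (le_max_right _ _) hT
  have hT0 : 0 < T := by linarith
  have h1 := h0 T ((le_max_left _ _).trans hT.le)
  have e1 : ∀ u : ℝ, Pool.Agent.N748.MG.mz 0 u = ‖riemannZeta (1 / 2 + u * I)‖ := by
    intro u
    unfold Pool.Agent.N748.MG.mz Pool.Agent.N748.MG.pw
    simp
  simp only [e1] at h1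
  have h2 : (volume {t : ℝ | t ∈ Set.Icc 0 T ∧
      (1 / H T) * ∫ u in t..(t + H T), ‖riemannZeta (1 / 2 + u * I)‖ ^ (2 * k) <
        (Real.log T / (ω T * Real.log (Real.log T) ^ 2)) ^ (k ^ 2)}).toReal ≤ η / 2 * T := by
    refine ENNReal.toReal_le_of_le_ofReal (by positivity) ((measure_mono ?_).trans h1)
    rintro t ⟨ht, hP⟩
    exact ⟨ht.1, ht.2, hP⟩
  rw [Real.dist_eq, sub_zero, abs_of_nonneg (by positivity), div_lt_iff₀ hT0]
  nlinarith

end Pool.Agent.Results.MP_112ba8_nt.LowerBoundShortIntervals
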