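import Pool.Agent.H6F.Fin4

set_option autoImplicit false

/-!
# Lower bounds for the shifted moments of all orders on the critical line, uniformly in the shifts

Let `m ≥ 1`, let `k_1, ..., k_m > 0` be real and let `h_1(T), ..., h_m(T)` be arbitrary real functions with `|h_j(T)| ≤ T^(1/2)`. Let
`d = d(T) → 0` with `d log T / (log 1/d)^2 → ∞`, for instance `d = (log log T)^3 / log T`. Then, for every `ε > 0` and all large `T`,

`(1/T) ∫_0^T ∏_j |ζ(1/2 + i(t + h_j))|^(2 k_j) dt ≥ (1 - ε) |a(h)| ∏_(j,l) |ζ(1 + 2d + i(h_j - h_l))|^(k_j k_l)`,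

where `a(h)` is the arithmetic factor, the product over the primes of
`∏_(j,l) (1 - p^(-1-i(h_j-h_l)))^(k_j k_l)` times the sum of `|c_r|² p^(-r)`, where `c_r` is the coefficient of `x^r` in
`∏_j (1 - x p^(-i h_j))^(-k_j)`. There is no unproved hypothesis and no truncation.

Proof (`Pool.Agent.H6F`): the right side is the size of the truncated shifted moment at the distance `d` from the critical line (theorem SM of
the team library N748.MJ). The integrals of `∏_j |f_j|^(2 k_j)` over vertical lines are convex functions of the abscissa, for analytic functions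
`f_j` which decrease along the lines; this is used between the critical line and the line `re s = 2` for
`f_j(s) = ζ(s + i h_j) (s + i h_j - 1) / (s + i h_j + 1)` times a Gaussian and an exponential weight, and integrated over the centre of the Gaussian.
-/

namespace Pool.Agent.Results.MP_112ba8_nt.ShiftedMomentsOnTheLine

open Filter MeasureTheory Topology Complex

/-- the coefficient of `x^r` in `(1 - x)^(-k)` -/
noncomputable def binom (k : ℂ) (r : ℕ) : ℂ := ∏ i ∈ Finset.range r, (k + i) / ((i : ℂ) + 1)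

/-- the coefficient of `x^r` in `∏_j (1 - x p^(-i h_j))^(-k_j)` -/
noncomputable def coeff {m : ℕ} (k h : Fin m → ℝ) (p r : ℕ) : ℂ :=
  ∑ μ ∈ Finset.piAntidiag (Finset.univ : Finset (Fin m)) r,
    ∏ j, binom (k j) (μ j) * (p : ℂ) ^ (-((μ j * h j : ℝ) * I))

/-- the arithmetic factor -/
noncomputable def arith {m : ℕ} (k h : Fin m → ℝ) : ℂ :=
  ∏' p : Nat.Primes, (∏ j, ∏ l, (1 - (p : ℂ) ^ (-(1 + ((h j - h l : ℝ) : ℂ) * I))) ^ ((k j : ℂ) * k l)) *
    ∑' r : ℕ, ((‖coeff k h p r‖ ^ 2 * ((p : ℝ) ^ (-1 : ℝ)) ^ r : ℝ) : ℂ)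

lemma arith_eq {m : ℕ} (k h : Fin m → ℝ) :
    arith k h = Pool.Agent.N748.MJ.aV (fun j => (k j : ℂ)) (fun j => (k j : ℂ)) h := by
  unfold arith Pool.Agent.N748.MJ.aV Pool.Agent.N748.MJ.gV
  refine tprod_congr fun p => ?_
  have ec : Pool.Agent.N748.MJ.cj (fun j => (k j : ℂ)) = fun j => (k j : ℂ) := by
    funext j
    exact Complex.conj_ofReal _
  rw [ec]
  congr 1
  · refine Finset.prod_congr rfl fun j _ => Finset.prod_congr rfl fun l _ => ?_
    congr 3
    push_cast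
    ring
  · refine tsum_congr fun r => ?_
    have e1 : coeff k h p r = Pool.Agent.N748.MJ.lV (fun j => (k j : ℂ)) h p r := rfl
    rw [← e1, Complex.mul_conj, Complex.normSq_eq_norm_sq]
    have e2 : -(1 + 2 * (0:ℝ)) = (-1 : ℝ) := by ring
    rw [e2]
    push_cast
    rfl

theorem result (m : ℕ) (hm : 1 ≤ m) (k : Fin m → ℝ) (hk : ∀ j, 0 < k j) (h : ℝ → Fin m → ℝ)
    (hh : ∀ᶠ T : ℝ in atTop, ∀ j, |h T j| ≤ T ^ (1 / 2 : ℝ)) (d : ℝ → ℝ) (hd0 : ∀ᶠ T : ℝ in atTop, 0 < d T)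
    (hd : Tendsto d atTop (𝓝 0))
    (hdL : Tendsto (fun T : ℝ => d T * Real.log T / Real.log (1 / d T) ^ 2) atTop atTop) (ε : ℝ) (hε : 0 < ε) :
    ∀ᶠ T : ℝ in atTop,
      (1 - ε) * (‖arith k (h T)‖ * ∏ j, ∏ l, ‖riemannZeta (1 + 2 * d T + (h T j - h T l) * I)‖ ^ (k j * k l)) ≤
        (1 / T) * ∫ t in (0:ℝ)..T, ∏ j, ‖riemannZeta (1 / 2 + (t + h T j) * I)‖ ^ (2 * k j) := by
  obtain ⟨R, hR⟩ : ∃ R : ℝ, ∀ j, |k j| ≤ R := by
    refine ⟨∑ j, |k j|, fun j => ?_⟩
    exact Finset.single_le_sum (f := fun j => |k j|) (fun i _ => abs_nonneg _) (Finset.mem_univ j)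
  have hR0 : 0 ≤ max R 0 := le_max_right _ _
  obtain ⟨c, C, hc, -, hP⟩ := Pool.Agent.N748.MJ.posF m (max R 0) hR0
  filter_upwards [Pool.Agent.H6F.shlF d ⟨hd0, hd, hdL⟩ m k ε hm hk hε h hh] with T hT
  obtain ⟨a, ha, hae⟩ := (hP (h T)).2 k fun j => (hR j).trans (le_max_left _ _)
  have e1 : ‖arith k (h T)‖ = (Pool.Agent.N748.MJ.aV (fun j => (k j : ℂ)) (fun j => (k j : ℂ)) (h T)).re := by
    rw [arith_eq, hae, Complex.norm_real, Complex.ofReal_re, Real.norm_of_nonneg (hc.le.trans ha)]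
  have e3 : ∀ j l, riemannZeta (((1 + 2 * d T : ℝ) : ℂ) + ((h T j - h T l : ℝ) : ℂ) * I) =
      riemannZeta (1 + 2 * (d T : ℂ) + ((h T j : ℂ) - (h T l : ℂ)) * I) := by
    intro j l
    congr 1
    push_cast
    ring
  have e4 : ∀ (j : Fin m) (t : ℝ), Pool.Agent.N748.MG.mz 0 (t + h T j) =
      ‖riemannZeta (1 / 2 + ((t : ℂ) + (h T j : ℂ)) * I)‖ := by
    intro j t
    unfold Pool.Agent.N748.MG.mz Pool.Agent.N748.MG.pw
    push_cast
    simp
  rw [e1]
  simp only [e3, e4] at hT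
  exact hT

end Pool.Agent.Results.MP_112ba8_nt.ShiftedMomentsOnTheLine
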