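import Pool.Agent.H6F.Fin2

set_option autoImplicit false

/-!
# The moments of zeta over almost all short intervals near the critical line: the whole phase diagram

Let `d = d(T) → 0` with `d log T / (log 1/d)^2 → ∞`, let `θ > 0` and `H = (2d)^(-θ)` (a power of `log T` if `d` is one). For almost all
`t ∈ [0, T]`, that is all `t` outside a set of measure `o(T)`,

* the average of `|ζ(1/2 + d + iu)|^(2k)` over the short interval `[t, t + H]` is asymptotically `a(k) (2d)^(-k²)`, with the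
  arithmetic factor `a(k)` of the moment conjecture, for every real `0 < k < √(1 + θ)`;
* for `k ≥ √(1 + θ)` it is `(2d)^(-(2k√(1+θ) - (1+θ)) + o(1))` (freezing), so the range of `k` in the first assertion is the exact one
  (`k² > 2k√(1+θ) - (1+θ)` for `k > √(1+θ)`);
* the maximum of `|ζ(1/2 + d + iu)|` over `[t, t + H]` is `(2d)^(-√(1+θ) + o(1))`.

In particular every moment, without any truncation, has the conjectured size and arithmetic factor over almost all intervals of the length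
`(2d)^(-θ)`, as soon as `θ > k² - 1`. There is no unproved hypothesis.

Proof (`Pool.Agent.H6F`): second moment method for the averages of `|ζ|^(2k)`, cut off at `(2d)^(-2k-1)` and with barriers at the scales
`(2d)^(i/n)`: the average of `|ζ|^(2b)`, `b = k/m`, over the window of this radius must have the size which it has under the `2k`-tilt. The
pair correlations at distances `≥ 1` come from the shifted moments of all real orders (library N748.MJ, by the team); their main term is averaged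
over the distance `1 ≤ h ≤ H` of the two points by a comparison of `ζ(1+2d+ih)` with `ζ(1+2e+ih)`, `e = log(1/2d)^(-12)`, and a mean
value theorem for the diagonal series. At the distances `(2d)^u`, `0 < u ≤ 1`, the barrier is exploited through the joint moments of orders
`2k, 2k, -2b, ..., -2b` at the two points and `m` further points of the window. The cut-offs are removed by subharmonicity.
-/

namespace Pool.Agent.Results.MP_112ba8_nt.ShortIntervalPhases

open Filter MeasureTheory Topology Complex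

/-- the arithmetic factor of the moment conjecture,
`a(k) = ∏_p (1 - 1/p)^(k²) ∑_m (k (k+1) ... (k+m-1) / m!)² p^(-m)` -/
noncomputable def ak (k : ℝ) : ℝ :=
  ∏' p : Nat.Primes, ((1 - 1 / (p : ℝ)) ^ (k ^ 2) *
    ∑' m : ℕ, (∏ i ∈ Finset.range m, (k + i) / ((i : ℝ) + 1)) ^ 2 * (1 / (p : ℝ)) ^ m)

/-- the modulus of zeta at distance `d` from the critical line and height `t` -/
noncomputable def z (d t : ℝ) : ℝ := ‖riemannZeta (1 / 2 + d + t * I)‖

/-- the average of `|ζ|^(2k)` over the interval `[t, t + H]` at distance `d` from the critical line -/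
noncomputable def average (k d H t : ℝ) : ℝ := (1 / H) * ∫ u in t..(t + H), z d u ^ (2 * k)

/-- `P T t` holds for almost all `t ∈ [0, T]`: the set of the exceptions has measure `o(T)` as `T → ∞` -/
def AlmostAll (P : ℝ → ℝ → Prop) : Prop :=
  Tendsto (fun T : ℝ => (volume {t : ℝ | t ∈ Set.Icc 0 T ∧ ¬ P T t}).toReal / T) atTop (𝓝 0)

lemma almostAll_of {P : ℝ → ℝ → Prop}
    (h : ∀ η : ℝ, 0 < η → ∀ᶠ T : ℝ in atTop, volume {t : ℝ | t ∈ Set.Icc 0 T ∧ ¬ P T t} ≤ ENNReal.ofReal (η * T)) :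
    AlmostAll P := by
  unfold AlmostAll
  rw [Metric.tendsto_atTop']
  intro η hη
  obtain ⟨T0, h0⟩ := (eventually_atTop.1 (h (η / 2) (by positivity)))
  refine ⟨max T0 1, fun T hT => ?_⟩
  have hT1 : 1 < T := lt_of_le_of_lt (le_max_right _ _) hT
  have hT0 : 0 < T := by linarith
  have h1 := h0 T ((le_max_left _ _).trans hT.le)
  have h2 : (volume {t : ℝ | t ∈ Set.Icc 0 T ∧ ¬ P T t}).toReal ≤ η / 2 * T :=
    ENNReal.toReal_le_of_le_ofReal (by positivity) h1
  rw [Real.dist_eq, sub_zero, abs_of_nonneg (by positivity), div_lt_iff₀ hT0]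
  nlinarith

theorem result (d : ℝ → ℝ) (hd0 : ∀ᶠ T : ℝ in atTop, 0 < d T) (hd : Tendsto d atTop (𝓝 0))
    (hdL : Tendsto (fun T : ℝ => d T * Real.log T / Real.log (1 / d T) ^ 2) atTop atTop) (θ ε : ℝ) (hθ : 0 < θ)
    (hε : 0 < ε) :
    (∀ k : ℝ, 0 < k → k < √(1 + θ) → AlmostAll fun T t =>
      |average k (d T) ((2 * d T) ^ (-θ)) t / (ak k * (2 * d T) ^ (-(k ^ 2))) - 1| ≤ ε) ∧
    (∀ k : ℝ, √(1 + θ) ≤ k → AlmostAll fun T t =>
      (2 * d T) ^ (-(2 * k * √(1 + θ) - (1 + θ)) + ε) ≤ average k (d T) ((2 * d T) ^ (-θ)) t ∧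
      average k (d T) ((2 * d T) ^ (-θ)) t ≤ (2 * d T) ^ (-(2 * k * √(1 + θ) - (1 + θ)) - ε)) ∧
    AlmostAll fun T t =>
      (∀ u ∈ Set.Icc t (t + (2 * d T) ^ (-θ)), z (d T) u ≤ (2 * d T) ^ (-√(1 + θ) - ε)) ∧
      ∃ u ∈ Set.Icc t (t + (2 * d T) ^ (-θ)), (2 * d T) ^ (-√(1 + θ) + ε) ≤ z (d T) u := by
  have hA : Pool.Agent.N748.MG.Ad d := ⟨hd0, hd, hdL⟩
  have hak : ∀ k : ℝ, ak k = (Pool.Agent.N748.MG.aC (k : ℂ)).re := by
    intro k
    rw [Pool.Agent.N748.MG.aC_re]
    rfl
  have hpos : ∀ k : ℝ, 0 < ak k := fun k => (Pool.Agent.N748.MG.aC_akR k).1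
  have hsmall : ∀ᶠ T : ℝ in atTop, d T < 1 / 2 := hd.eventually (gt_mem_nhds (by norm_num))
  refine ⟨fun k hk hkθ => almostAll_of fun η hη => ?_, fun k hk => almostAll_of fun η hη => ?_,
    almostAll_of fun η hη => ?_⟩
  · have hk2 : k ^ 2 < 1 + θ := by
      have h1 : √(1 + θ) ^ 2 = 1 + θ := Real.sq_sqrt (by linarith)
      rw [← h1]
      exact pow_lt_pow_left₀ hkθ hk.le (by norm_num)
    have h1 := Pool.Agent.H6F.lln2F d hA k θ (min ε η) hk hθ hk2 (lt_min hε hη)
    filter_upwards [h1, hd0, eventually_gt_atTop 0] with T hT hdT hT0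
    refine (measure_mono ?_).trans (hT.trans (ENNReal.ofReal_le_ofReal
      (mul_le_mul_of_nonneg_right (min_le_right _ _) hT0.le)))
    rintro t ⟨⟨ht0, htT⟩, hP⟩
    refine ⟨ht0, htT, ?_⟩
    have hM : Pool.Agent.H6F.M k (d T) = ak k * (2 * d T) ^ (-(k ^ 2)) := by
      unfold Pool.Agent.H6F.M
      rw [hak]
    have hav : Pool.Agent.H6F.av k (d T) ((2 * d T) ^ (-θ)) t = average k (d T) ((2 * d T) ^ (-θ)) t := rfl
    have hM0 : 0 < ak k * (2 * d T) ^ (-(k ^ 2)) := mul_pos (hpos k) (Real.rpow_pos_of_pos (by linarith) _)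
    rw [hM, hav]
    by_contra hcon
    apply hP
    push Not at hcon
    have e1 : average k (d T) ((2 * d T) ^ (-θ)) t / (ak k * (2 * d T) ^ (-(k ^ 2))) - 1 =
        (average k (d T) ((2 * d T) ^ (-θ)) t - ak k * (2 * d T) ^ (-(k ^ 2))) / (ak k * (2 * d T) ^ (-(k ^ 2))) := by
      rw [sub_div, div_self hM0.ne']
    rw [e1, abs_div, abs_of_pos hM0, div_le_iff₀ hM0]
    exact hcon.trans (mul_le_mul_of_nonneg_right (min_le_left _ _) hM0.le)
  · have h1 := (Pool.Agent.H6F.froz2F d hA θ (min ε η) hθ (lt_min hε hη)).2 k hk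
    filter_upwards [h1, hd0, hsmall, eventually_gt_atTop 0] with T hT hdT hd2 hT0
    refine (measure_mono ?_).trans (hT.trans (ENNReal.ofReal_le_ofReal
      (mul_le_mul_of_nonneg_right (min_le_right _ _) hT0.le)))
    rintro t ⟨⟨ht0, htT⟩, hP⟩
    refine ⟨ht0, htT, fun hcon => hP ?_⟩
    have hav : Pool.Agent.H6F.av k (d T) ((2 * d T) ^ (-θ)) t = average k (d T) ((2 * d T) ^ (-θ)) t := rfl
    rw [hav] at hcon
    have h20 : 0 < 2 * d T := by linarith
    have h21 : 2 * d T ≤ 1 := by linarith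
    have hm : min ε η ≤ ε := min_le_left _ _
    exact ⟨(Real.rpow_le_rpow_of_exponent_ge h20 h21 (by linarith)).trans hcon.1,
      hcon.2.trans (Real.rpow_le_rpow_of_exponent_ge h20 h21 (by linarith))⟩
  · have h1 := (Pool.Agent.H6F.froz2F d hA θ (min ε η) hθ (lt_min hε hη)).1
    filter_upwards [h1, hd0, hsmall, eventually_gt_atTop 0] with T hT hdT hd2 hT0
    refine (measure_mono ?_).trans (hT.trans (ENNReal.ofReal_le_ofReal
      (mul_le_mul_of_nonneg_right (min_le_right _ _) hT0.le)))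
    rintro t ⟨⟨ht0, htT⟩, hP⟩
    refine ⟨ht0, htT, fun hcon => hP ?_⟩
    have h20 : 0 < 2 * d T := by linarith
    have h21 : 2 * d T ≤ 1 := by linarith
    have hm : min ε η ≤ ε := min_le_left _ _
    obtain ⟨g1, u, g2, g3, g4⟩ := hcon
    exact ⟨fun v hv => (g1 v hv.1 hv.2).trans (Real.rpow_le_rpow_of_exponent_ge h20 h21 (by linarith)),
      u, ⟨g2, g3⟩, (Real.rpow_le_rpow_of_exponent_ge h20 h21 (by linarith)).trans g4⟩

end Pool.Agent.Results.MP_112ba8_nt.ShortIntervalPhases
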